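import Pool.Agent.helper84.NR.Spec

/-!
# CNT: the numbers of edges and vertices of U (project NR)
-/

set_option autoImplicit false

namespace Pool.Agent.helper84.NR

open scoped Classical
open Finset

/-- The edge with index `k` of `B`. -/
noncomputable def CNT_ed {V F : Type} (M : PMap V F) (y : V) (B : F) (k : ℕ) : Sym2 V :=
  s(ww M y B k, ww M y B (k + 1))

/-- The indices between the first and the last shared index. -/
noncomputable def CNT_R {V F : Type} (M : PMap V F) (x y : V) (B : F) : Finset ℕ :=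
  (range (M.len B)).filter (fun k => inb M x y B k)

/-- The shared indices. -/
noncomputable def CNT_S {V F : Type} (M : PMap V F) (x y : V) (B : F) : Finset ℕ :=
  (range (M.len B)).filter (fun k => sh M x y B k)

structure CNT_face {V F : Type} (M : PMap V F) (x y : V) (B : F) : Prop where
  inj : ∀ a b, a < M.len B → b < M.len B → ww M y B a = ww M y B b → a = b
  ver : ∀ v, OnV M.toCyc B v → ∃ a, a < M.len B ∧ ww M y B a = v
  edg : ∀ e, OnE M.toCyc B e → ∃ a, a < M.len B ∧ e = CNT_ed M y B a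
  chord : ∀ a b, a < b → b < M.len B → OnE M.toCyc B s(ww M y B a, ww M y B b) →
    b = a + 1 ∨ (a = 0 ∧ b = M.len B - 1)
  w0 : ww M y B 0 = y
  wn : ww M y B (M.len B) = y
  onv : ∀ k, OnV M.toCyc B (ww M y B k)
  one : ∀ k, OnE M.toCyc B (CNT_ed M y B k)
  xB : ¬ OnV M.toCyc B x
  yB : OnV M.toCyc B y
  nexy : ∀ f, ¬ (OnV M.toCyc f x ∧ OnV M.toCyc f y)

theorem CNT_mkface (hIDX : IDX_stmt) (hWW0 : WW0_stmt) {V F : Type} {M : PMap V F} {x y : V}
    {B : F} (ne : ∀ f, ¬ (OnV M.toCyc f x ∧ OnV M.toCyc f y)) (hB : OnV M.toCyc B y) :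
    CNT_face M x y B := by
  obtain ⟨h1, h2, h3, h4, h5⟩ := hIDX V F M.toCyc B (st M y B)
  obtain ⟨h6, h7⟩ := hWW0 V F M y B hB
  exact ⟨h1, h2, h3, h4, h6, h7, fun k => ⟨st M y B + k, rfl⟩, fun k => ⟨st M y B + k, rfl⟩,
    fun hx => ne B ⟨hx, hB⟩, hB, ne⟩

theorem CNT_inb {V F : Type} {M : PMap V F} {x y : V} {B : F} {k : ℕ} (h : inb M x y B k) :
    1 ≤ k ∧ k + 1 < M.len B := by
  obtain ⟨⟨a, ha, hsa⟩, b, hb, hsb⟩ := h
  have h1 := hsa.1
  have h2 := hsb.2.1
  omega

theorem CNT_memR {V F : Type} {M : PMap V F} {x y : V} {B : F} {k : ℕ} :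
    k ∈ CNT_R M x y B ↔ inb M x y B k := by
  unfold CNT_R
  rw [mem_filter, mem_range]
  constructor
  · exact fun h => h.2
  · intro h
    have := CNT_inb h
    exact ⟨by omega, h⟩

theorem CNT_memS {V F : Type} {M : PMap V F} {x y : V} {B : F} {k : ℕ} :
    k ∈ CNT_S M x y B ↔ sh M x y B k := by
  unfold CNT_S
  rw [mem_filter, mem_range]
  exact ⟨fun h => h.2, fun h => ⟨h.2.1, h⟩⟩

theorem CNT_edinj {V F : Type} {M : PMap V F} {x y : V} {B : F} (hf : CNT_face M x y B) {k l : ℕ}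
    (hk : inb M x y B k) (hl : inb M x y B l) (h : CNT_ed M y B k = CNT_ed M y B l) : k = l := by
  have h1 := CNT_inb hk
  have h2 := CNT_inb hl
  unfold CNT_ed at h
  rcases Sym2.eq_iff.1 h with ⟨h3, h4⟩ | ⟨h3, h4⟩
  · exact hf.inj k l (by omega) (by omega) h3
  · have h5 := hf.inj k (l + 1) (by omega) (by omega) h3
    have h6 := hf.inj (k + 1) l (by omega) (by omega) h4
    omega

theorem CNT_xed {V F : Type} {M : PMap V F} {x y : V} {B : F} (hf : CNT_face M x y B) (k : ℕ) :
    x ∉ CNT_ed M y B k := by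
  intro h
  unfold CNT_ed at h
  rw [Sym2.mem_iff] at h
  rcases h with h | h
  · exact hf.xB (h ▸ hf.onv k)
  · exact hf.xB (h ▸ hf.onv (k + 1))

theorem CNT_E {V F : Type} [Fintype V] [Fintype F] (hEDG : EDG_stmt) {M : PMap V F} {x y : V}
    {B : F} (hf : CNT_face M x y B) :
    ((CNT_R M x y B).filter (fun k => cx M x (CNT_ed M y B k))).card = (shE M x B).card := by
  rw [← Finset.card_image_of_injOn (f := CNT_ed M y B)
    (s := (CNT_R M x y B).filter (fun k => cx M x (CNT_ed M y B k)))]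
  · congr 1
    ext e
    unfold shE
    simp only [mem_image, mem_filter, mem_univ, true_and, CNT_memR]
    constructor
    · rintro ⟨k, ⟨h1, h2⟩, rfl⟩
      exact ⟨hf.one k, h2.2⟩
    · rintro ⟨h1, A, hA, hAe⟩
      obtain ⟨a, ha, rfl⟩ := hf.edg e h1
      obtain ⟨h3, h4, -⟩ := (hEDG V F M).1 A _ _ hAe
      have ha0 : a ≠ 0 := by
        rintro rfl
        rw [hf.w0] at h3
        exact hf.nexy A ⟨hA, h3⟩
      have han : a + 1 ≠ M.len B := by
        intro h5
        rw [h5, hf.wn] at h4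
        exact hf.nexy A ⟨hA, h4⟩
      have hs1 : sh M x y B a := ⟨by omega, ha, A, hA, h3⟩
      have hs2 : sh M x y B (a + 1) := ⟨by omega, by omega, A, hA, h4⟩
      exact ⟨a, ⟨⟨⟨a, le_rfl, hs1⟩, a + 1, by omega, hs2⟩, CNT_xed hf a, A, hA, hAe⟩, rfl⟩
  · intro k hk l hl h
    rw [mem_coe, mem_filter, CNT_memR] at hk hl
    exact CNT_edinj hf hk.1 hl.1 h

theorem CNT_V {V F : Type} [Fintype V] [Fintype F] {M : PMap V F} {x y : V}
    {B : F} (hf : CNT_face M x y B) : (CNT_S M x y B).card = (shV M x B).card := by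
  rw [← Finset.card_image_of_injOn (f := ww M y B) (s := CNT_S M x y B)]
  · congr 1
    ext v
    unfold shV
    simp only [mem_image, mem_filter, mem_univ, true_and, CNT_memS]
    constructor
    · rintro ⟨k, h1, rfl⟩
      exact ⟨hf.onv k, h1.2.2⟩
    · rintro ⟨h1, A, hA, hAv⟩
      obtain ⟨a, ha, rfl⟩ := hf.ver v h1
      have ha0 : a ≠ 0 := by
        rintro rfl
        rw [hf.w0] at hAv
        exact hf.nexy A ⟨hA, hAv⟩
      exact ⟨a, ⟨by omega, ha, A, hA, hAv⟩, rfl⟩
  · intro k hk l hl h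
    rw [mem_coe, CNT_memS] at hk hl
    exact hf.inj k l hk.2.1 hl.2.1 h

theorem CNT_RS {V F : Type} {M : PMap V F} {x y : V} {B : F} (hn : ∃ k, sh M x y B k) :
    ((CNT_R M x y B).filter (fun k => sh M x y B k)).card + 1 = (CNT_S M x y B).card := by
  have hne : (CNT_S M x y B).Nonempty := by
    obtain ⟨k, hk⟩ := hn
    exact ⟨k, CNT_memS.2 hk⟩
  have hm := (CNT_S M x y B).max'_mem hne
  have h1 : (CNT_R M x y B).filter (fun k => sh M x y B k) =
      (CNT_S M x y B).erase ((CNT_S M x y B).max' hne) := by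
    ext k
    rw [mem_filter, CNT_memR, mem_erase, CNT_memS]
    constructor
    · rintro ⟨⟨-, b, hb, hsb⟩, h2⟩
      refine ⟨?_, h2⟩
      have := (CNT_S M x y B).le_max' b (CNT_memS.2 hsb)
      omega
    · rintro ⟨h2, h3⟩
      have := (CNT_S M x y B).le_max' k (CNT_memS.2 h3)
      exact ⟨⟨⟨k, le_rfl, h3⟩, _, lt_of_le_of_ne this h2, CNT_memS.1 hm⟩, h3⟩
  rw [h1]
  exact card_erase_add_one hm

theorem CNT_one {V F : Type} [Fintype V] [Fintype F] (hEDG : EDG_stmt) {M : PMap V F} {x y : V}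
    {B : F} (hf : CNT_face M x y B) (hn : ∃ k, sh M x y B k) :
    (((CNT_R M x y B).filter (fun k => ¬ cx M x (CNT_ed M y B k))).card : ℤ) -
      (((CNT_R M x y B).filter (fun k => ¬ sh M x y B k)).card : ℤ) =
      ((shV M x B).card : ℤ) - (shE M x B).card - 1 := by
  have h1 := CNT_E hEDG hf
  have h2 := CNT_V hf
  have h3 := CNT_RS hn
  have h4 := Finset.card_filter_add_card_filter_not (s := CNT_R M x y B)
    (fun k => cx M x (CNT_ed M y B k))
  have h5 := Finset.card_filter_add_card_filter_not (s := CNT_R M x y B)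
    (fun k => sh M x y B k)
  omega

theorem CNT_CD {V F : Type} [Fintype V] [Fintype F] (hEDG : EDG_stmt) (hDEG : DEG_stmt)
    (M : PMap V F) (x : V) :
    (univ.filter (fun v => v ≠ x ∧ ∃ A, OnV M.toCyc A x ∧ OnV M.toCyc A v)).card =
      (univ.filter (fun e : Sym2 V => cx M x e)).card := by
  have key := Finset.card_mul_eq_card_mul
    (s := univ.filter (fun v => v ≠ x ∧ ∃ A, OnV M.toCyc A x ∧ OnV M.toCyc A v))
    (t := univ.filter (fun e : Sym2 V => cx M x e)) (fun (v : V) (e : Sym2 V) => v ∈ e)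
    (m := 2) (n := 2) ?_ ?_
  · omega
  · intro v hv
    rw [mem_filter] at hv
    rw [← (hDEG V F M x).2.2.2.2 v hv.2.1 hv.2.2]
    congr 1
    ext e
    unfold Finset.bipartiteAbove cx
    simp only [mem_filter, mem_univ, true_and]
    tauto
  · intro e he
    rw [mem_filter] at he
    obtain ⟨-, hx, A, hA, hAe⟩ := he
    induction e using Sym2.ind with
    | _ u v =>
      obtain ⟨h1, h2, h3⟩ := (hEDG V F M).1 A u v hAe
      rw [Sym2.mem_iff] at hx
      have h4 : (univ.filter (fun v => v ≠ x ∧ ∃ A, OnV M.toCyc A x ∧ OnV M.toCyc A v)).bipartiteBelow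
          (fun (v : V) (e : Sym2 V) => v ∈ e) s(u, v) = {u, v} := by
        ext w
        unfold Finset.bipartiteBelow
        simp only [mem_filter, mem_univ, true_and, Sym2.mem_iff, mem_insert, mem_singleton]
        constructor
        · exact fun h => h.2
        · intro h
          refine ⟨?_, h⟩
          rcases h with rfl | rfl
          · exact ⟨fun h => hx (Or.inl h.symm), A, hA, h1⟩
          · exact ⟨fun h => hx (Or.inr h.symm), A, hA, h2⟩
      rw [h4]
      exact card_pair h3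

theorem CNT (hIDX : IDX_stmt) (hEDG : EDG_stmt) (hDEG : DEG_stmt) (hWW0 : WW0_stmt) : CNT_stmt := by
  intro V F _ _ M x y J hT
  have hface : ∀ B ∈ J, CNT_face M x y B := fun B hB => CNT_mkface hIDX hWW0 hT.ne (hT.jy B hB)
  -- edges
  have hU : univ.filter (fun e => inU M x y J e) = univ.filter (fun e : Sym2 V => cx M x e) ∪
      J.biUnion (fun B => ((CNT_R M x y B).filter (fun k => ¬ cx M x (CNT_ed M y B k))).image
        (CNT_ed M y B)) := by
    ext e
    rw [mem_union, mem_filter, mem_filter, mem_biUnion]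
    constructor
    · rintro ⟨-, h | ⟨B, hB, k, hk, rfl⟩⟩
      · exact Or.inl ⟨mem_univ _, h⟩
      · by_cases hc : cx M x (CNT_ed M y B k)
        · exact Or.inl ⟨mem_univ _, hc⟩
        · refine Or.inr ⟨B, hB, ?_⟩
          rw [mem_image]
          exact ⟨k, mem_filter.2 ⟨CNT_memR.2 hk, hc⟩, rfl⟩
    · rintro (⟨-, h⟩ | ⟨B, hB, h⟩)
      · exact ⟨mem_univ _, Or.inl h⟩
      · obtain ⟨k, hk, rfl⟩ := mem_image.1 h
        exact ⟨mem_univ _, Or.inr ⟨B, hB, k, CNT_memR.1 (mem_filter.1 hk).1, rfl⟩⟩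
  have hUd : Disjoint (univ.filter (fun e : Sym2 V => cx M x e))
      (J.biUnion (fun B => ((CNT_R M x y B).filter (fun k => ¬ cx M x (CNT_ed M y B k))).image
        (CNT_ed M y B))) := by
    rw [Finset.disjoint_left]
    intro e he h
    obtain ⟨B, hB, h⟩ := mem_biUnion.1 h
    obtain ⟨k, hk, rfl⟩ := mem_image.1 h
    exact (mem_filter.1 hk).2 (mem_filter.1 he).2
  have hUp : ∀ B ∈ J, ∀ B' ∈ J, B ≠ B' →
      Disjoint (((CNT_R M x y B).filter (fun k => ¬ cx M x (CNT_ed M y B k))).image (CNT_ed M y B))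
        (((CNT_R M x y B').filter (fun k => ¬ cx M x (CNT_ed M y B' k))).image (CNT_ed M y B')) := by
    intro B hB B' hB' hne
    rw [Finset.disjoint_left]
    intro e he he'
    obtain ⟨k, hk, rfl⟩ := mem_image.1 he
    obtain ⟨l, hl, hkl⟩ := mem_image.1 he'
    have hf := hface B hB
    have hf' := hface B' hB'
    have h1 := CNT_inb (CNT_memR.1 (mem_filter.1 hk).1)
    have h2 : OnE M.toCyc B' (CNT_ed M y B k) := hkl ▸ hf'.one l
    obtain ⟨h3, h4, h5⟩ := (hEDG V F M).1 B' _ _ h2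
    obtain ⟨-, -, h6⟩ := M.poly B B' hne _ _ h5 (hf.onv k) (hf.onv (k + 1)) h3 h4
    have hlen := M.three B
    rcases h6 y hf.yB hf'.yB with h7 | h7
    · have := hf.inj 0 k (by omega) (by omega) (hf.w0.trans h7)
      omega
    · have := hf.inj 0 (k + 1) (by omega) (by omega) (hf.w0.trans h7)
      omega
  have hUc : (univ.filter (fun e => inU M x y J e)).card =
      (univ.filter (fun e : Sym2 V => cx M x e)).card +
        ∑ B ∈ J, ((CNT_R M x y B).filter (fun k => ¬ cx M x (CNT_ed M y B k))).card := by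
    rw [hU, Finset.card_union_of_disjoint hUd, Finset.card_biUnion hUp]
    congr 1
    refine Finset.sum_congr rfl fun B hB => ?_
    refine Finset.card_image_of_injOn ?_
    intro k hk l hl h
    rw [mem_coe, mem_filter, CNT_memR] at hk hl
    exact CNT_edinj (hface B hB) hk.1 hl.1 h
  -- vertices
  have hW : univ.filter (fun v => inW M x y J v) =
      univ.filter (fun v => v ≠ x ∧ ∃ A, OnV M.toCyc A x ∧ OnV M.toCyc A v) ∪
      J.biUnion (fun B => ((CNT_R M x y B).filter (fun k => ¬ sh M x y B k)).image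
        (ww M y B)) := by
    ext v
    rw [mem_union, mem_filter, mem_filter, mem_biUnion]
    constructor
    · rintro ⟨-, h | ⟨B, hB, k, hk, rfl⟩⟩
      · exact Or.inl ⟨mem_univ _, h⟩
      · have hf := hface B hB
        by_cases hc : sh M x y B k
        · refine Or.inl ⟨mem_univ _, ?_, hc.2.2⟩
          intro hx
          exact hf.xB (hx ▸ hf.onv k)
        · refine Or.inr ⟨B, hB, ?_⟩
          rw [mem_image]
          exact ⟨k, mem_filter.2 ⟨CNT_memR.2 hk, hc⟩, rfl⟩
    · rintro (⟨-, h⟩ | ⟨B, hB, h⟩)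
      · exact ⟨mem_univ _, Or.inl h⟩
      · obtain ⟨k, hk, rfl⟩ := mem_image.1 h
        exact ⟨mem_univ _, Or.inr ⟨B, hB, k, CNT_memR.1 (mem_filter.1 hk).1, rfl⟩⟩
  have hWd : Disjoint (univ.filter (fun v => v ≠ x ∧ ∃ A, OnV M.toCyc A x ∧ OnV M.toCyc A v))
      (J.biUnion (fun B => ((CNT_R M x y B).filter (fun k => ¬ sh M x y B k)).image
        (ww M y B))) := by
    rw [Finset.disjoint_left]
    intro v hv h
    obtain ⟨B, hB, h⟩ := mem_biUnion.1 h
    obtain ⟨k, hk, rfl⟩ := mem_image.1 h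
    have h1 := CNT_inb (CNT_memR.1 (mem_filter.1 hk).1)
    exact (mem_filter.1 hk).2 ⟨h1.1, by omega, (mem_filter.1 hv).2.2⟩
  have hWp : ∀ B ∈ J, ∀ B' ∈ J, B ≠ B' →
      Disjoint (((CNT_R M x y B).filter (fun k => ¬ sh M x y B k)).image (ww M y B))
        (((CNT_R M x y B').filter (fun k => ¬ sh M x y B' k)).image (ww M y B')) := by
    intro B hB B' hB' hne
    rw [Finset.disjoint_left]
    intro v hv hv'
    obtain ⟨k, hk, rfl⟩ := mem_image.1 hv
    obtain ⟨l, hl, hkl⟩ := mem_image.1 hv'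
    have hf := hface B hB
    have hf' := hface B' hB'
    obtain ⟨hk1, hk2⟩ := mem_filter.1 hk
    obtain ⟨⟨a, ha, hsa⟩, b, hb, hsb⟩ := CNT_memR.1 hk1
    have hak : a ≠ k := by
      rintro rfl
      exact hk2 hsa
    have h1 := hsa.1
    have h2 := hsb.2.1
    have hv2 : OnV M.toCyc B' (ww M y B k) := hkl ▸ hf'.onv l
    have hyk : ww M y B 0 ≠ ww M y B k := by
      intro h3
      have := hf.inj 0 k (by omega) (by omega) h3
      omega
    have hy' : OnV M.toCyc B' (ww M y B 0) := by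
      rw [hf.w0]
      exact hf'.yB
    obtain ⟨h4, -, -⟩ := M.poly B B' hne _ _ hyk (hf.onv 0) (hf.onv k) hy' hv2
    rcases hf.chord 0 k (by omega) (by omega) h4 with h5 | ⟨-, h5⟩
    · omega
    · omega
  have hWc : (univ.filter (fun v => inW M x y J v)).card =
      (univ.filter (fun v => v ≠ x ∧ ∃ A, OnV M.toCyc A x ∧ OnV M.toCyc A v)).card +
        ∑ B ∈ J, ((CNT_R M x y B).filter (fun k => ¬ sh M x y B k)).card := by
    rw [hW, Finset.card_union_of_disjoint hWd, Finset.card_biUnion hWp]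
    congr 1
    refine Finset.sum_congr rfl fun B hB => ?_
    refine Finset.card_image_of_injOn ?_
    intro k hk l hl h
    rw [mem_coe, mem_filter, CNT_memR] at hk hl
    have h1 := CNT_inb hk.1
    have h2 := CNT_inb hl.1
    exact (hface B hB).inj k l (by omega) (by omega) h
  rw [hUc, hWc, CNT_CD hEDG hDEG M x]
  push_cast
  rw [add_sub_add_left_eq_sub, ← Finset.sum_sub_distrib]
  exact Finset.sum_congr rfl fun B hB => CNT_one hEDG (hface B hB) (hT.jn B hB)

end Pool.Agent.helper84.NR
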