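import Pool.Agent.helper24.NR.Spec

/-!
# SMA: small faces meet exactly one face at the other vertex (project NR)
-/

set_option autoImplicit false

namespace Pool.Agent.NR

open Finset

theorem SMA_tri {V F : Type} {vs : F → Finset V} {es : F → Finset (Sym2 V)} (h : Cfg vs es)
    {x u v : V} {f k l : F} (hx : x ∈ vs f) (huv : s(u, v) ∈ es f) (hu : s(x, u) ∈ es k)
    (hv : s(x, v) ∈ es l) : ∀ w ∈ vs f, w = x ∨ w = u ∨ w = v := by
  classical
  obtain ⟨huf, hvf, hne⟩ := h.ends f u v huv
  obtain ⟨hxk, huk, hxu⟩ := h.ends k x u hu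
  obtain ⟨hxl, hvl, hxv⟩ := h.ends l x v hv
  have h1 : s(x, u) ∈ es f := by
    by_cases hk : f = k
    · rw [hk]
      exact hu
    · exact h.meet2 f k hk x u hxu hx huf hxk huk
  have h2 : s(x, v) ∈ es f := by
    by_cases hl : f = l
    · rw [hl]
      exact hv
    · exact h.meet2 f l hl x v hxv hx hvf hxl hvl
  have h3 : (vs f).card = 3 := h.tri f x u v hxu hne hxv h1 huv h2
  have hsub : ({x, u, v} : Finset V) ⊆ vs f := by
    intro w hw
    rw [mem_insert, mem_insert, mem_singleton] at hw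
    rcases hw with rfl | rfl | rfl
    · exact hx
    · exact huf
    · exact hvf
  have hc : ({x, u, v} : Finset V).card = 3 := by
    rw [card_insert_of_notMem, card_insert_of_notMem, card_singleton]
    · rw [mem_singleton]
      exact hne
    · rw [mem_insert, mem_singleton]
      rintro (h4 | h4)
      · exact hxu h4
      · exact hxv h4
  have heq : ({x, u, v} : Finset V) = vs f := eq_of_subset_of_card_le hsub (by omega)
  intro w hw
  rw [← heq, mem_insert, mem_insert, mem_singleton] at hw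
  exact hw

theorem SMA : SMA_stmt := by
  classical
  intro V F _ _ vs es x y hB f hf
  unfold SX FX NX at hf
  obtain ⟨hf1, u, v, huv, hcm, hu, hv⟩ := mem_filter.1 hf
  have hxf : x ∈ vs f := (mem_filter.1 hf1).2
  obtain ⟨k, hk⟩ := (mem_filter.1 hu).2
  obtain ⟨l, hl⟩ := (mem_filter.1 hv).2
  unfold CM at hcm
  obtain ⟨-, -, g₀, hyg, hge⟩ := mem_filter.1 hcm
  have hC := hB.cfg
  obtain ⟨huf, hvf, hne⟩ := hC.ends f u v huv
  obtain ⟨hug, hvg, -⟩ := hC.ends g₀ u v hge
  have htri := SMA_tri hC hxf huv hk hl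
  have hyf : y ∉ vs f := hB.noface f hxf
  have hyu : y ≠ u := fun h => hyf (h ▸ huf)
  have hyv : y ≠ v := fun h => hyf (h ▸ hvf)
  refine ⟨g₀, ?_, ?_, ?_⟩
  · unfold FX
    exact mem_filter.2 ⟨mem_univ _, hyg⟩
  · intro hg
    unfold SX FX NX at hg
    obtain ⟨-, u', v', huv', -, hu', hv'⟩ := mem_filter.1 hg
    obtain ⟨k', hk'⟩ := (mem_filter.1 hu').2
    obtain ⟨l', hl'⟩ := (mem_filter.1 hv').2
    rcases SMA_tri hC hyg huv' hk' hl' u hug with h1 | h1 | h1
    · exact hyu h1.symm
    · exact hB.hA u k k' hk (by rw [h1]; exact hk')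
    · exact hB.hA u k l' hk (by rw [h1]; exact hl')
  · intro g hg
    unfold FX at hg
    have hyg' : y ∈ vs g := (mem_filter.1 hg).2
    constructor
    · rintro ⟨w, hwf, hwg⟩
      by_contra hgg
      rcases htri w hwf with h1 | h1 | h1
      · rw [h1] at hwg
        exact hB.noface g hwg hyg'
      · rw [h1] at hwg
        exact hB.hA u k g hk (hC.meet2 g g₀ hgg y u hyu hyg' hwg hyg hug)
      · rw [h1] at hwg
        exact hB.hA v l g hl (hC.meet2 g g₀ hgg y v hyv hyg' hwg hyg hvg)
    · intro h1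
      refine ⟨u, huf, ?_⟩
      rw [h1]
      exact hug

end Pool.Agent.NR
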